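import Pool.Agent.T9h19.MB.Defs

/-!
# A criterion for positive semidefinite forms with symmetries
-/

set_option autoImplicit false

namespace Pool.Agent.T9h58.MB

open Finset Matrix

/-- the quadratic form of a matrix -/
lemma dot_mulVec {ι : Type} [Fintype ι] (M : ι → ι → ℝ) (v : ι → ℝ) :
    star v ⬝ᵥ ((Matrix.of M) *ᵥ v) = ∑ i, ∑ j, v i * v j * M i j := by
  simp only [dotProduct, mulVec, Pi.star_apply, star_trivial, of_apply, mul_sum]
  exact sum_congr rfl fun i _ => sum_congr rfl fun j _ => by ring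

/-- a nonnegative quadratic form and positive semidefinite matrices -/
lemma psd_iff {ι : Type} [Fintype ι] (M : ι → ι → ℝ) (hM : ∀ i j, M i j = M j i) :
    (Matrix.of M).PosSemidef ↔ ∀ v : ι → ℝ, 0 ≤ ∑ i, ∑ j, v i * v j * M i j := by
  rw [posSemidef_iff_dotProduct_mulVec]
  constructor
  · intro h v
    have := h.2 v
    rwa [dot_mulVec] at this
  · intro h
    refine ⟨?_, fun v => ?_⟩
    · ext i j
      simp only [conjTranspose_apply, of_apply, star_trivial]
      exact hM j i
    · rw [dot_mulVec]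
      exact h v

/-- (C1) -/
theorem spectral {ι : Type} [Fintype ι] [DecidableEq ι] (M : ι → ι → ℝ) (hM : ∀ i j, M i j = M j i)
    {K : Type} [Fintype K] (τ : K → Equiv.Perm ι) (hinv : ∀ k i, τ k (τ k i) = i)
    (hMτ : ∀ k i j, M (τ k i) (τ k j) = M i j)
    (h0 : ∀ v : ι → ℝ, (∀ k i, v (τ k i) = v i) → 0 ≤ ∑ i, ∑ j, v i * v j * M i j)
    (h1 : ∀ k, ∀ v : ι → ℝ,
      0 ≤ ∑ i, ∑ j, (v i - v (τ k i)) * (v j - v (τ k j)) * M i j)
    (v : ι → ℝ) : 0 ≤ ∑ i, ∑ j, v i * v j * M i j := by
  revert v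
  rw [← psd_iff M hM]
  have hH : (Matrix.of M).IsHermitian := by
    ext i j
    simp only [conjTranspose_apply, of_apply, star_trivial]
    exact hM j i
  rw [hH.posSemidef_iff_eigenvalues_nonneg]
  intro l
  by_contra hneg
  simp only [Pi.zero_apply, not_le] at hneg
  set μ : ℝ := hH.eigenvalues l with hμ
  set u : ι → ℝ := ⇑(hH.eigenvectorBasis l) with hu
  have hev : ∀ i, ∑ j, M i j * u j = μ * u i := by
    intro i
    have := congrFun (hH.mulVec_eigenvectorBasis l) i
    simpa [mulVec, dotProduct] using this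
  have hform : ∀ w : ι → ℝ, (∀ i, ∑ j, M i j * w j = μ * w i) →
      ∑ i, ∑ j, w i * w j * M i j = μ * ∑ i, w i ^ 2 := by
    intro w hw
    rw [mul_sum]
    refine sum_congr rfl fun i _ => ?_
    have : ∑ j, w i * w j * M i j = w i * ∑ j, M i j * w j := by
      rw [mul_sum]
      exact sum_congr rfl fun j _ => by ring
    rw [this, hw i]
    ring
  have hpos : ∀ w : ι → ℝ, (∃ i, w i ≠ 0) → 0 < ∑ i, w i ^ 2 := by
    rintro w ⟨i, hi⟩
    exact sum_pos' (fun j _ => sq_nonneg _) ⟨i, mem_univ _, by positivity⟩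
  have hu0 : ∃ i, u i ≠ 0 := by
    by_contra hcon
    push Not at hcon
    have h2 : hH.eigenvectorBasis l = 0 := by
      ext i
      exact hcon i
    have h3 := hH.eigenvectorBasis.orthonormal.1 l
    rw [h2, norm_zero] at h3
    exact zero_ne_one h3
  have huτ : ∀ k i, ∑ j, M i j * u (τ k j) = μ * u (τ k i) := by
    intro k i
    rw [← hev (τ k i)]
    rw [← Equiv.sum_comp (τ k) (fun j => M (τ k i) j * u j)]
    exact sum_congr rfl fun j _ => by rw [hMτ]
  by_cases hc : ∃ k i, u i - u (τ k i) ≠ 0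
  · obtain ⟨k, i, hi⟩ := hc
    have h2 := hform (fun i => u i - u (τ k i)) (fun i => by
      simp only [mul_sub, sum_sub_distrib]
      rw [hev, huτ])
    have h3 := hpos (fun i => u i - u (τ k i)) ⟨i, hi⟩
    have h4 := h1 k u
    rw [h2] at h4
    nlinarith
  · push Not at hc
    have h2 := h0 u fun k i => by
      have := hc k i
      linarith
    rw [hform u hev] at h2
    have := hpos u hu0
    nlinarith

end Pool.Agent.T9h58.MB
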