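import Pool.Agent.T9h58.MB.Km2

/-!
# Independent virtual subsets
-/

set_option autoImplicit false

namespace Pool.Agent.T9h58.MB

open Finset Matrix
open Pool.Agent.T9h19.MB (ff kmom)

/-- one level -/
noncomputable def kk (m : ℕ) (x : ℝ) (A : Finset (Fin m × Bool)) : ℝ :=
  if ∃ v, (v, true) ∈ A ∧ (v, false) ∈ A then 0 else
    ff x (A.filter fun l => l.2 = true).card * ff (m - x) (A.filter fun l => l.2 = false).card /
      ff m A.card

lemma card_tf {m : ℕ} (A : Finset (Fin m × Bool)) :
    (A.filter fun l => l.2 = true).card + (A.filter fun l => l.2 = false).card = A.card := by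
  have h := card_filter_add_card_filter_not (s := A) (fun l => l.2 = true)
  have e : (A.filter fun l => ¬ l.2 = true) = A.filter fun l => l.2 = false :=
    filter_congr fun l _ => by simp
  rw [e] at h
  exact h

/-- the number of literals -/
lemma card_lt {m : ℕ} {A : Finset (Fin m × Bool)} (hA : ¬ ∃ v, (v, true) ∈ A ∧ (v, false) ∈ A)
    {k : Fin m} (h : ∀ b, (k, b) ∉ A) : A.card < m := by
  have hinj : Set.InjOn Prod.fst (A : Set (Fin m × Bool)) := by
    rintro ⟨u, a⟩ hu ⟨v, b⟩ hv (huv : u = v)
    subst huv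
    rw [mem_coe] at hu hv
    cases a <;> cases b
    · rfl
    · exact absurd ⟨u, hv, hu⟩ hA
    · exact absurd ⟨u, hu, hv⟩ hA
    · rfl
  rw [← card_image_of_injOn hinj]
  have h1 : A.image Prod.fst ⊆ univ.erase k := by
    intro y hy
    rw [mem_image] at hy
    obtain ⟨⟨u, b⟩, hu, rfl⟩ := hy
    rw [mem_erase]
    refine ⟨?_, mem_univ _⟩
    rintro rfl
    exact h b hu
  have h2 := card_le_card h1
  rw [card_erase_of_mem (mem_univ _), card_univ, Fintype.card_fin] at h2
  have := k.pos
  omega

lemma kk_one (m : ℕ) (x : ℝ) : kk m x ∅ = 1 := by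
  unfold kk
  simp

lemma kk_insert {m : ℕ} (x : ℝ) {A : Finset (Fin m × Bool)}
    (hA : ¬ ∃ v, (v, true) ∈ A ∧ (v, false) ∈ A) {k : Fin m} (h : ∀ b, (k, b) ∉ A) (b : Bool) :
    kk m x (insert (k, b) A) = ff x ((A.filter fun l => l.2 = true).card + if b then 1 else 0) *
      ff (m - x) ((A.filter fun l => l.2 = false).card + if b then 0 else 1) / ff m (A.card + 1) := by
  unfold kk
  rw [if_neg]
  · rw [card_insert_of_notMem (h b), filter_insert, filter_insert]
    cases b
    · have h1 : (k, false) ∉ A.filter fun l => l.2 = false := fun h' => h false (mem_filter.1 h').1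
      simp [card_insert_of_notMem h1]
    · have h1 : (k, true) ∉ A.filter fun l => l.2 = true := fun h' => h true (mem_filter.1 h').1
      simp [card_insert_of_notMem h1]
  · rintro ⟨v, h1, h2⟩
    rw [mem_insert] at h1 h2
    rcases h1 with h1 | h1
    · rcases h2 with h2 | h2
      · rw [Prod.mk.injEq] at h1 h2
        exact absurd (h1.2.trans h2.2.symm) (by decide)
      · rw [Prod.mk.injEq] at h1
        rw [h1.1] at h2
        exact h _ h2
    · rcases h2 with h2 | h2
      · rw [Prod.mk.injEq] at h2
        rw [h2.1] at h1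
        exact h _ h1
      · exact hA ⟨v, h1, h2⟩

lemma kk_zero {m : ℕ} (x : ℝ) {A : Finset (Fin m × Bool)}
    (hA : ∃ v, (v, true) ∈ A ∧ (v, false) ∈ A) : kk m x A = 0 := by
  unfold kk
  rw [if_pos hA]

lemma kk_compl (m : ℕ) (x : ℝ) (A : Finset (Fin m × Bool)) (k : Fin m) :
    kk m x (insert (k, true) A) + kk m x (insert (k, false) A) = kk m x A := by
  by_cases hA : ∃ v, (v, true) ∈ A ∧ (v, false) ∈ A
  · obtain ⟨v, h1, h2⟩ := hA
    rw [kk_zero x ⟨v, h1, h2⟩, kk_zero x ⟨v, mem_insert_of_mem h1, mem_insert_of_mem h2⟩,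
      kk_zero x ⟨v, mem_insert_of_mem h1, mem_insert_of_mem h2⟩, add_zero]
  · by_cases h1 : (k, true) ∈ A
    · rw [insert_eq_of_mem h1, kk_zero x ⟨k, mem_insert_of_mem h1, mem_insert_self _ _⟩, add_zero]
    · by_cases h2 : (k, false) ∈ A
      · rw [insert_eq_of_mem h2, kk_zero x ⟨k, mem_insert_self _ _, mem_insert_of_mem h2⟩, zero_add]
      · have hk : ∀ b, (k, b) ∉ A := by
          intro b
          cases b
          · exact h2
          · exact h1
        have hlt := card_lt hA hk
        rw [kk_insert x hA hk, kk_insert x hA hk]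
        unfold kk
        rw [if_neg hA]
        simp only [if_true, Bool.false_eq_true, if_false, add_zero]
        have h3 := card_tf A
        rw [ff_succ, ff_succ, ff_succ]
        have h4 : ff (m : ℝ) A.card ≠ 0 := (ff_nat_pos hlt.le).ne'
        have h5 : (m : ℝ) - A.card ≠ 0 := by
          have : (A.card : ℝ) < m := by exact_mod_cast hlt
          linarith
        have h6 : (A.card : ℝ) = (A.filter fun l => l.2 = true).card +
            (A.filter fun l => l.2 = false).card := by exact_mod_cast h3.symm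
        field_simp
        rw [h6]
        ring

/-- the literals of an assignment of the variables in `Y` -/
def lit {α : Type} [DecidableEq α] (Y w : Finset α) : Finset (α × Bool) :=
  Y.image fun v => (v, decide (v ∈ w))

lemma full {α : Type} [DecidableEq α] (L : Finset (α × Bool) → ℝ)
    (hL : ∀ S v, L (insert (v, true) S) + L (insert (v, false) S) = L S) (Y : Finset α) :
    ∀ S, L S = ∑ w ∈ Y.powerset, L (S ∪ lit Y w) := by
  induction Y using Finset.induction_on with
  | empty =>
    intro S
    simp [lit]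
  | insert y Y hy ih =>
    intro S
    rw [sum_powerset_insert hy, ← sum_add_distrib, ih S]
    refine sum_congr rfl fun w hw => ?_
    have hyw : y ∉ w := fun h => hy (mem_powerset.1 hw h)
    have e1 : lit (insert y Y) w = insert (y, false) (lit Y w) := by
      unfold lit
      rw [image_insert]
      simp [hyw]
    have e2 : lit (insert y Y) (insert y w) = insert (y, true) (lit Y w) := by
      unfold lit
      rw [image_insert]
      have : Y.image (fun v => (v, decide (v ∈ insert y w))) =
          Y.image (fun v => (v, decide (v ∈ w))) := by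
        refine image_congr fun v hv => ?_
        have hvy : v ≠ y := by
          rintro rfl
          exact hy hv
        simp [hvy]
      rw [this]
      simp
    rw [e1, e2, union_insert, union_insert, add_comm, hL]

lemma kk_full (m : ℕ) (x : ℝ) (A : Finset (Fin m × Bool)) :
    kk m x A = Lf (univ : Finset (Fin m)) x (conj A) := by
  rw [full (kk m x) (kk_compl m x) univ A]
  unfold Lf
  refine sum_congr rfl fun w _ => ?_
  by_cases h : ∀ l ∈ A, (l.1 ∈ w ↔ l.2 = true)
  · have h1 : A ∪ lit univ w = lit univ w := by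
      refine union_eq_right.2 fun l hl => ?_
      unfold lit
      rw [mem_image]
      refine ⟨l.1, mem_univ _, ?_⟩
      have := h l hl
      ext
      · rfl
      · by_cases h2 : l.2 = true
        · simp [h2, this.2 h2]
        · have h3 : l.1 ∉ w := fun h4 => h2 (this.1 h4)
          rw [Bool.not_eq_true] at h2
          simp [h2, h3]
    rw [h1]
    unfold conj
    rw [if_pos h, mul_one]
    unfold kk W
    have hmem : ∀ v b, ((v, b) ∈ lit (univ : Finset (Fin m)) w ↔ decide (v ∈ w) = b) := by
      intro v b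
      unfold lit
      rw [mem_image]
      constructor
      · rintro ⟨u, -, hu⟩
        rw [Prod.mk.injEq] at hu
        rw [← hu.1]
        exact hu.2
      · intro hb
        exact ⟨v, mem_univ _, by rw [hb]⟩
    rw [if_neg]
    · have hinj : Function.Injective (fun v : Fin m => (v, decide (v ∈ w))) := by
        intro u v huv
        rw [Prod.mk.injEq] at huv
        exact huv.1
      have c1 : (lit (univ : Finset (Fin m)) w).card = m := by
        unfold lit
        rw [card_image_of_injective _ hinj, card_univ, Fintype.card_fin]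
      have c2 : ((lit (univ : Finset (Fin m)) w).filter fun l => l.2 = true).card = w.card := by
        have : (lit (univ : Finset (Fin m)) w).filter (fun l => l.2 = true) =
            w.image (fun v => (v, true)) := by
          ext ⟨v, b⟩
          rw [mem_filter, hmem, mem_image]
          constructor
          · rintro ⟨h1, h2⟩
            simp only at h2
            subst h2
            exact ⟨v, by simpa using h1, rfl⟩
          · rintro ⟨u, hu, huv⟩
            rw [Prod.mk.injEq] at huv
            obtain ⟨rfl, rfl⟩ := huv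
            simp [hu]
        rw [this, card_image_of_injective _ (fun u v huv => by simpa using huv)]
      have c3 := card_tf (lit (univ : Finset (Fin m)) w)
      have c4 : ((lit (univ : Finset (Fin m)) w).filter fun l => l.2 = false).card = m - w.card := by
        omega
      rw [c1, c2, c4, card_univ, Fintype.card_fin]
    · rintro ⟨v, h1, h2⟩
      rw [hmem] at h1 h2
      rw [h1] at h2
      exact absurd h2 (by decide)
  · have h1 : conj A w = 0 := by
      unfold conj
      rw [if_neg h]
    rw [h1, mul_zero]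
    apply kk_zero
    push Not at h
    obtain ⟨l, hl, hl'⟩ := h
    have hmem : ∀ v, (v, decide (v ∈ w)) ∈ lit (univ : Finset (Fin m)) w := fun v =>
      mem_image_of_mem _ (mem_univ _)
    refine ⟨l.1, ?_⟩
    have hl2 := hmem l.1
    rcases hl' with ⟨h2, h3⟩ | ⟨h2, h3⟩
    · rw [decide_eq_true h2] at hl2
      have h4 : l.2 = false := by simpa using h3
      refine ⟨mem_union_right _ hl2, mem_union_left _ ?_⟩
      rw [← h4]
      exact hl
    · rw [decide_eq_false h2] at hl2
      refine ⟨mem_union_left _ ?_, mem_union_right _ hl2⟩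
      rw [← h3]
      exact hl

lemma kk_rel {m : ℕ} (x : ℝ) {A : Finset (Fin m × Bool)} (hA : A.card < m) :
    ∑ k : Fin m, kk m x (insert (k, true) A) = x * kk m x A := by
  have h1 : conj A ∈ D (univ : Finset (Fin m)) A.card := conj_mem (fun _ _ => mem_univ _) le_rfl
  have h2 := L_rel x h1 (by rw [card_univ, Fintype.card_fin]; exact hA)
  rw [kk_full m x A, ← h2]
  simp only [kk_full]
  unfold Lf
  rw [sum_comm]
  refine sum_congr rfl fun w _ => ?_
  rw [← mul_sum]
  congr 1
  have e : ∀ k : Fin m, conj (insert (k, true) A) w = (if k ∈ w then 1 else 0) * conj A w := by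
    intro k
    rw [insert_eq, ← conj_mul]
    congr 1
    unfold conj
    simp
  rw [sum_congr rfl fun k _ => e k, ← sum_mul]
  congr 1
  rw [sum_boole]
  simp

lemma ff_le {x y : ℝ} (hy : 0 ≤ y) : ∀ a : ℕ, (a : ℝ) ≤ x → ff x a ≤ ff (x + y) a := by
  intro a ha
  unfold ff
  refine prod_le_prod (fun i hi => ?_) fun i _ => by linarith
  have : (i : ℝ) + 1 ≤ a := by exact_mod_cast mem_range.1 hi
  linarith

lemma ff_mul_le {x y : ℝ} {a : ℕ} (ha : (a : ℝ) ≤ x) : ∀ b : ℕ, (b : ℝ) ≤ y →
    ff x a * ff y b ≤ ff (x + y) (a + b) := by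
  intro b
  induction b with
  | zero =>
    intro hb
    rw [ff_zero, mul_one, add_zero]
    exact ff_le (by simpa using hb) a ha
  | succ b ih =>
    intro hb
    push_cast at hb
    have h1 := ih (by linarith)
    rw [ff_succ, ← add_assoc, ff_succ, ← mul_assoc]
    have h2 : 0 ≤ ff x a * ff y b :=
      mul_nonneg (ff_pos ha).le (ff_pos (by linarith)).le
    push_cast
    exact mul_le_mul h1 (by linarith) (by linarith) (h2.trans h1)

lemma kk_bdd {m N : ℕ} {x : ℝ} (h1 : (N : ℝ) ≤ x) (h2 : (N : ℝ) ≤ m - x)
    {A : Finset (Fin m × Bool)} (hA : A.card ≤ N) : |kk m x A| ≤ 1 := by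
  unfold kk
  split_ifs
  · simp
  · have h3 := card_tf A
    have h4 : ((A.filter fun l => l.2 = true).card : ℝ) ≤ x := by
      have : ((A.filter fun l => l.2 = true).card : ℝ) ≤ N := by exact_mod_cast (by omega)
      linarith
    have h5 : ((A.filter fun l => l.2 = false).card : ℝ) ≤ m - x := by
      have : ((A.filter fun l => l.2 = false).card : ℝ) ≤ N := by exact_mod_cast (by omega)
      linarith
    have h6 := ff_mul_le h4 _ h5
    rw [add_sub_cancel, h3] at h6
    have hN0 : (0 : ℝ) ≤ N := Nat.cast_nonneg N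
    have h7 : 0 < ff (m : ℝ) A.card := ff_pos (by
      have : (A.card : ℝ) ≤ N := by exact_mod_cast hA
      linarith)
    rw [abs_of_nonneg (div_nonneg (mul_nonneg (ff_pos h4).le (ff_pos h5).le) h7.le), div_le_one h7]
    exact h6

/-! ### the levels -/

/-- the literals of level `i` -/
def sl {n m : ℕ} (i : Fin n) (S : Finset ((Fin n × Fin m) × Bool)) : Finset (Fin m × Bool) :=
  univ.filter fun l => ((i, l.1), l.2) ∈ S

lemma mem_sl {n m : ℕ} {i : Fin n} {S : Finset ((Fin n × Fin m) × Bool)} {l : Fin m × Bool} :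
    l ∈ sl i S ↔ ((i, l.1), l.2) ∈ S := by
  unfold sl
  rw [mem_filter]
  simp

lemma sl_card_aux {n m : ℕ} (i : Fin n) (S : Finset ((Fin n × Fin m) × Bool))
    (P : Bool → Prop) [DecidablePred P] :
    ((sl i S).filter fun l => P l.2).card = (S.filter fun l => l.1.1 = i ∧ P l.2).card := by
  refine card_nbij' (fun l => ((i, l.1), l.2)) (fun l => (l.1.2, l.2)) ?_ ?_ ?_ ?_
  · intro l hl
    rw [mem_coe, mem_filter, mem_sl] at hl
    rw [mem_coe, mem_filter]
    exact ⟨hl.1, rfl, hl.2⟩
  · rintro ⟨⟨i', k⟩, b⟩ hl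
    rw [mem_coe, mem_filter] at hl
    obtain ⟨h1, h2, h3⟩ := hl
    simp only at h2 h3
    subst h2
    rw [mem_coe, mem_filter, mem_sl]
    exact ⟨h1, h3⟩
  · intro l _
    rfl
  · rintro ⟨⟨i', k⟩, b⟩ hl
    rw [mem_coe, mem_filter] at hl
    obtain ⟨h1, h2, h3⟩ := hl
    simp only at h2
    subst h2
    rfl

lemma sl_card {n m : ℕ} (i : Fin n) (S : Finset ((Fin n × Fin m) × Bool)) :
    (sl i S).card = (S.filter fun l => l.1.1 = i).card := by
  have := sl_card_aux i S (fun _ => True)
  simpa using this

lemma sl_card_le {n m : ℕ} (i : Fin n) (S : Finset ((Fin n × Fin m) × Bool)) :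
    (sl i S).card ≤ S.card := by
  rw [sl_card]
  exact card_filter_le _ _

lemma kmom_eq (n m : ℕ) (x : Fin n → ℝ) (S : Finset ((Fin n × Fin m) × Bool)) :
    kmom n m x S = ∏ i, kk m (x i) (sl i S) := by
  unfold kmom
  by_cases h : ∃ v, (v, true) ∈ S ∧ (v, false) ∈ S
  · rw [if_pos h]
    obtain ⟨⟨i, k⟩, h1, h2⟩ := h
    symm
    refine prod_eq_zero (mem_univ i) (kk_zero _ ⟨k, mem_sl.2 h1, mem_sl.2 h2⟩)
  · rw [if_neg h]
    refine prod_congr rfl fun i _ => ?_
    unfold kk
    rw [if_neg, sl_card_aux i S (fun b => b = true), sl_card_aux i S (fun b => b = false), sl_card]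
    rintro ⟨k, h1, h2⟩
    exact h ⟨(i, k), mem_sl.1 h1, mem_sl.1 h2⟩

lemma sl_insert_self {n m : ℕ} (i : Fin n) (k : Fin m) (b : Bool)
    (S : Finset ((Fin n × Fin m) × Bool)) :
    sl i (insert ((i, k), b) S) = insert (k, b) (sl i S) := by
  ext l
  rw [mem_sl, mem_insert, mem_insert, mem_sl]
  constructor
  · rintro (h | h)
    · left
      simp only [Prod.mk.injEq, true_and] at h
      exact Prod.ext h.1 h.2
    · exact Or.inr h
  · rintro (h | h)
    · left
      rw [h]
    · exact Or.inr h

lemma sl_insert_ne {n m : ℕ} {i j : Fin n} (hij : i ≠ j) (k : Fin m) (b : Bool)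
    (S : Finset ((Fin n × Fin m) × Bool)) : sl j (insert ((i, k), b) S) = sl j S := by
  ext l
  rw [mem_sl, mem_insert, mem_sl]
  constructor
  · rintro (h | h)
    · simp only [Prod.mk.injEq] at h
      exact absurd h.1.1.symm hij
    · exact h
  · exact Or.inr

lemma kmom_insert (n m : ℕ) (x : Fin n → ℝ) (S : Finset ((Fin n × Fin m) × Bool)) (i : Fin n)
    (k : Fin m) (b : Bool) : kmom n m x (insert ((i, k), b) S) =
      kk m (x i) (insert (k, b) (sl i S)) * ∏ j ∈ univ.erase i, kk m (x j) (sl j S) := by
  rw [kmom_eq, ← mul_prod_erase _ _ (mem_univ i), sl_insert_self]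
  congr 1
  refine prod_congr rfl fun j hj => ?_
  rw [sl_insert_ne (ne_of_mem_erase hj).symm]

lemma kmom_split (n m : ℕ) (x : Fin n → ℝ) (S : Finset ((Fin n × Fin m) × Bool)) (i : Fin n) :
    kmom n m x S = kk m (x i) (sl i S) * ∏ j ∈ univ.erase i, kk m (x j) (sl j S) := by
  rw [kmom_eq, ← mul_prod_erase _ _ (mem_univ i)]

/-- (C2) -/
theorem kmom_one (n m : ℕ) (x : Fin n → ℝ) : kmom n m x ∅ = 1 := by
  rw [kmom_eq]
  refine prod_eq_one fun i _ => ?_
  have : sl i (∅ : Finset ((Fin n × Fin m) × Bool)) = ∅ := by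
    ext l
    rw [mem_sl]
    simp
  rw [this, kk_one]

theorem kmom_compl (n m : ℕ) (x : Fin n → ℝ) (S : Finset ((Fin n × Fin m) × Bool))
    (u : Fin n × Fin m) :
    kmom n m x (insert (u, true) S) + kmom n m x (insert (u, false) S) = kmom n m x S := by
  obtain ⟨i, k⟩ := u
  rw [kmom_insert, kmom_insert, kmom_split n m x S i, ← add_mul, kk_compl]

theorem kmom_bdd (n m N : ℕ) (x : Fin n → ℝ) (h : ∀ i, (N : ℝ) ≤ x i ∧ (N : ℝ) ≤ m - x i)
    (S : Finset ((Fin n × Fin m) × Bool)) (hS : S.card ≤ N) : |kmom n m x S| ≤ 1 := by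
  rw [kmom_eq, abs_prod]
  exact prod_le_one (fun i _ => abs_nonneg _) fun i _ =>
    kk_bdd (h i).1 (h i).2 ((sl_card_le i S).trans hS)

lemma prod_psd {ι : Type} [Fintype ι] {K : Type} (T : Finset K) (M : K → ι → ι → ℝ)
    (hM : ∀ k ∈ T, (Matrix.of (M k)).PosSemidef) :
    (Matrix.of fun i j => ∏ k ∈ T, M k i j).PosSemidef := by
  classical
  induction T using Finset.induction_on with
  | empty =>
    rw [psd_iff _ (fun i j => rfl)]
    intro v
    simp only [prod_empty, mul_one]
    rw [← sum_mul_sum]
    exact mul_self_nonneg _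
  | insert a T ha ih =>
    have h1 := (hM a (mem_insert_self _ _)).hadamard (ih fun k hk => hM k (mem_insert_of_mem hk))
    have h2 : (Matrix.of fun i j => ∏ k ∈ insert a T, M k i j) =
        (Matrix.of (M a)) ⊙ (Matrix.of fun i j => ∏ k ∈ T, M k i j) := by
      ext i j
      rw [hadamard_apply, of_apply, of_apply, of_apply, prod_insert ha]
    rw [h2]
    exact h1

lemma sl_union {n m : ℕ} (i : Fin n) (S S' : Finset ((Fin n × Fin m) × Bool)) :
    sl i (S ∪ S') = sl i S ∪ sl i S' := by
  ext l
  rw [mem_sl, mem_union, mem_union, mem_sl, mem_sl]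

theorem kmom_psd (n m N : ℕ) (x : Fin n → ℝ) (h : ∀ i, (N : ℝ) ≤ x i ∧ (N : ℝ) ≤ m - x i)
    (c : Finset ((Fin n × Fin m) × Bool) → ℝ) (hc : ∀ S, c S ≠ 0 → S.card ≤ N) :
    0 ≤ ∑ S, ∑ S', c S * c S' * kmom n m x (S ∪ S') := by
  classical
  -- the vectors
  set g : Fin n → Finset ((Fin n × Fin m) × Bool) → Finset (Fin m) → ℝ := fun i S =>
    if S.card ≤ N then conj (sl i S) else 0 with hg
  have hgD : ∀ i S, g i S ∈ D (univ : Finset (Fin m)) N := by
    intro i S
    rw [hg]
    simp only
    split_ifs with h1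
    · exact conj_mem (fun _ _ => mem_univ _) ((sl_card_le i S).trans h1)
    · exact Submodule.zero_mem _
  have hpsd : ∀ i ∈ (univ : Finset (Fin n)),
      (Matrix.of fun S S' => Lf univ (x i) (fun w => g i S w * g i S' w)).PosSemidef := by
    intro i _
    rw [psd_iff _ (fun S S' => by congr 1; funext w; ring)]
    intro v
    rw [L_form univ (x i) (g i) v]
    refine pos N univ (x i) (h i).1 ?_ _ ?_
    · rw [card_univ, Fintype.card_fin]
      exact (h i).2
    · have : (fun w => ∑ A, v A * g i A w) = ∑ A, v A • g i A := by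
        funext w
        simp [Finset.sum_apply]
      rw [this]
      exact Submodule.sum_mem _ fun A _ => Submodule.smul_mem _ _ (hgD i A)
  have h1 := prod_psd univ _ hpsd
  rw [psd_iff _ (fun S S' => prod_congr rfl fun i _ => by congr 1; funext w; ring)] at h1
  refine le_of_le_of_eq (h1 c) ?_
  refine sum_congr rfl fun S _ => sum_congr rfl fun S' _ => ?_
  by_cases hS : c S = 0
  · rw [hS]; ring
  · by_cases hS' : c S' = 0
    · rw [hS']; ring
    · congr 1
      rw [kmom_eq]
      refine prod_congr rfl fun i _ => ?_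
      rw [sl_union, kk_full]
      congr 1
      funext w
      rw [hg]
      simp only [if_pos (hc S hS), if_pos (hc S' hS')]
      exact conj_mul _ _ _

theorem kmom_rel (n m : ℕ) (x : Fin n → ℝ) (S : Finset ((Fin n × Fin m) × Bool)) (hS : S.card < m)
    (i : Fin n) : ∑ k : Fin m, kmom n m x (insert ((i, k), true) S) = x i * kmom n m x S ∧
      ∑ k : Fin m, kmom n m x (insert ((i, k), false) S) = (m - x i) * kmom n m x S := by
  have h1 : ∑ k : Fin m, kmom n m x (insert ((i, k), true) S) = x i * kmom n m x S := by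
    simp only [kmom_insert]
    rw [← sum_mul, kk_rel (x i) (lt_of_le_of_lt (sl_card_le i S) hS), kmom_split n m x S i, mul_assoc]
  refine ⟨h1, ?_⟩
  have h2 : ∀ k : Fin m, kmom n m x (insert ((i, k), false) S) =
      kmom n m x S - kmom n m x (insert ((i, k), true) S) := fun k => by
    have := kmom_compl n m x S (i, k)
    linarith
  rw [sum_congr rfl fun k _ => h2 k, sum_sub_distrib, h1, sum_const, card_univ, Fintype.card_fin,
    nsmul_eq_mul]
  ring

end Pool.Agent.T9h58.MB
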