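import Pool.Agent.T9h58.MB.Spec

/-!
# A virtual subset with `x` elements of a set of `m` elements (the knapsack functional)
-/

set_option autoImplicit false

namespace Pool.Agent.T9h58.MB

open Finset
open Pool.Agent.T9h19.MB (ff)

variable {α : Type} [DecidableEq α]

/-- the conjunction of the literals in `A` as a function of the set of the true variables -/
def conj (A : Finset (α × Bool)) (w : Finset α) : ℝ :=
  if ∀ l ∈ A, (l.1 ∈ w ↔ l.2 = true) then 1 else 0

/-- the weight of the sets with `s` elements -/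
noncomputable def W (m : ℕ) (x : ℝ) (s : ℕ) : ℝ := ff x s * ff (m - x) (m - s) / ff m m

/-- the functional -/
noncomputable def Lf (X : Finset α) (x : ℝ) (f : Finset α → ℝ) : ℝ :=
  ∑ w ∈ X.powerset, W X.card x w.card * f w

/-- the functions of degree at most `N` -/
def D (X : Finset α) (N : ℕ) : Submodule ℝ (Finset α → ℝ) :=
  Submodule.span ℝ {f | ∃ A : Finset (α × Bool), (∀ l ∈ A, l.1 ∈ X) ∧ A.card ≤ N ∧ f = conj A}

omit [DecidableEq α] in
lemma ff_succ (x : ℝ) (k : ℕ) : ff x (k + 1) = ff x k * (x - k) := by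
  unfold ff
  rw [prod_range_succ]

omit [DecidableEq α] in
lemma ff_succ' (x : ℝ) (k : ℕ) : ff x (k + 1) = x * ff (x - 1) k := by
  unfold ff
  rw [prod_range_succ']
  push_cast
  rw [sub_zero, mul_comm]
  congr 1
  exact prod_congr rfl fun i _ => by ring

omit [DecidableEq α] in
@[simp] lemma ff_zero (x : ℝ) : ff x 0 = 1 := by
  unfold ff
  rw [range_zero, prod_empty]

omit [DecidableEq α] in
lemma ff_pos {x : ℝ} {k : ℕ} (h : (k : ℝ) ≤ x) : 0 < ff x k := by
  unfold ff
  refine prod_pos fun i hi => ?_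
  have : (i : ℝ) + 1 ≤ k := by exact_mod_cast mem_range.1 hi
  linarith

omit [DecidableEq α] in
lemma ff_nat_pos {m k : ℕ} (h : k ≤ m) : 0 < ff (m : ℝ) k := ff_pos (by exact_mod_cast h)

lemma conj_mul (A B : Finset (α × Bool)) (w : Finset α) : conj A w * conj B w = conj (A ∪ B) w := by
  unfold conj
  by_cases hA : ∀ l ∈ A, (l.1 ∈ w ↔ l.2 = true)
  · by_cases hB : ∀ l ∈ B, (l.1 ∈ w ↔ l.2 = true)
    · rw [if_pos hA, if_pos hB, if_pos, one_mul]
      intro l hl
      rcases mem_union.1 hl with h | h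
      · exact hA l h
      · exact hB l h
    · rw [if_neg hB, mul_zero, if_neg]
      exact fun h => hB fun l hl => h l (mem_union_right _ hl)
  · rw [if_neg hA, zero_mul, if_neg]
    exact fun h => hA fun l hl => h l (mem_union_left _ hl)

lemma conj_mem {X : Finset α} {N : ℕ} {A : Finset (α × Bool)} (h : ∀ l ∈ A, l.1 ∈ X)
    (hN : A.card ≤ N) : conj A ∈ D X N := Submodule.subset_span ⟨A, h, hN, rfl⟩

lemma D_mono {X : Finset α} {N N' : ℕ} (h : N ≤ N') : D X N ≤ D X N' := by
  refine Submodule.span_mono ?_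
  rintro f ⟨A, h1, h2, rfl⟩
  exact ⟨A, h1, h2.trans h, rfl⟩

lemma D_mul {X : Finset α} {a b : ℕ} {f g : Finset α → ℝ} (hf : f ∈ D X a) (hg : g ∈ D X b) :
    f * g ∈ D X (a + b) := by
  have h1 : f * g ∈ D X a * D X b := Submodule.mul_mem_mul hf hg
  unfold D at h1
  rw [Submodule.span_mul_span] at h1
  refine Submodule.span_mono ?_ h1
  rintro u ⟨f, ⟨A, h1, h2, rfl⟩, g, ⟨B, h3, h4, rfl⟩, rfl⟩
  refine ⟨A ∪ B, fun l hl => ?_, (card_union_le _ _).trans (add_le_add h2 h4), ?_⟩
  · rcases mem_union.1 hl with h | h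
    · exact h1 l h
    · exact h3 l h
  · funext w
    exact conj_mul A B w

lemma one_mem (X : Finset α) (N : ℕ) : (1 : Finset α → ℝ) ∈ D X N := by
  have h : (1 : Finset α → ℝ) = conj (∅ : Finset (α × Bool)) := by
    funext w
    simp [conj]
  rw [h]
  exact conj_mem (by simp) (by simp)

/-- alternating sums -/
lemma alt {X : Finset α} {N : ℕ} {f : Finset α → ℝ} (hf : f ∈ D X N) {B : Finset α}
    (hB : N < B.card) : ∑ C ∈ B.powerset, (-1 : ℝ) ^ C.card * f C = 0 := by
  refine Submodule.span_induction ?_ ?_ ?_ ?_ hf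
  · rintro f ⟨A, -, hA, rfl⟩
    obtain ⟨y, hyB, hyA⟩ : ∃ y ∈ B, y ∉ A.image Prod.fst := by
      by_contra hcon
      push Not at hcon
      have h1 := card_le_card (show B ⊆ A.image Prod.fst from hcon)
      have h2 : (A.image Prod.fst).card ≤ A.card := card_image_le
      omega
    obtain ⟨B', hB', rfl⟩ : ∃ B', y ∉ B' ∧ B = insert y B' :=
      ⟨B.erase y, notMem_erase _ _, (insert_erase hyB).symm⟩
    rw [sum_powerset_insert hB', ← sum_add_distrib]
    refine sum_eq_zero fun C hC => ?_
    have hyC : y ∉ C := fun h => hB' (mem_powerset.1 hC h)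
    rw [card_insert_of_notMem hyC]
    have h3 : conj A (insert y C) = conj A C := by
      unfold conj
      congr 1
      apply propext
      refine forall₂_congr fun l hl => ?_
      rw [mem_insert]
      have : l.1 ≠ y := by
        rintro rfl
        exact hyA (mem_image_of_mem _ hl)
      simp [this]
    rw [h3, pow_succ]
    ring
  · simp
  · intro f g _ _ h1 h2
    simp only [Pi.add_apply, mul_add, sum_add_distrib, h1, h2, add_zero]
  · intro c f _ h1
    simp only [Pi.smul_apply, smul_eq_mul]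
    have : ∑ C ∈ B.powerset, (-1 : ℝ) ^ C.card * (c * f C) =
        c * ∑ C ∈ B.powerset, (-1 : ℝ) ^ C.card * f C := by
      rw [mul_sum]
      exact sum_congr rfl fun C _ => by ring
    rw [this, h1, mul_zero]

omit [DecidableEq α] in
lemma W_step (m : ℕ) (x : ℝ) {s : ℕ} (hs : s < m) :
    W m x (s + 1) * ((s : ℝ) + 1 - x) = -(W m x s * (s - x)) := by
  obtain ⟨r, rfl⟩ : ∃ r, m = s + 1 + r := ⟨m - (s + 1), by omega⟩
  unfold W
  rw [show s + 1 + r - (s + 1) = r by omega, show s + 1 + r - s = r + 1 by omega, ff_succ x s,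
    ff_succ _ r]
  push_cast
  ring

omit [DecidableEq α] in
lemma W_alt (m : ℕ) (x : ℝ) (s : ℕ) (hs : s ≤ m) :
    W m x s * (s - x) = (-1) ^ s * (W m x 0 * (0 - x)) := by
  induction s with
  | zero => simp
  | succ s ih =>
    have h1 := W_step m x (show s < m by omega)
    have h2 := ih (by omega)
    push_cast
    rw [h1, h2, pow_succ]
    ring

lemma L_rel {X : Finset α} {N : ℕ} (x : ℝ) {f : Finset α → ℝ} (hf : f ∈ D X N) (hN : N < X.card) :
    Lf X x (fun w => w.card * f w) = x * Lf X x f := by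
  have h1 := alt hf hN
  have h2 : Lf X x (fun w => w.card * f w) - x * Lf X x f =
      (W X.card x 0 * (0 - x)) * ∑ C ∈ X.powerset, (-1 : ℝ) ^ C.card * f C := by
    unfold Lf
    rw [mul_sum, mul_sum, ← sum_sub_distrib]
    refine sum_congr rfl fun w hw => ?_
    have h3 := W_alt X.card x w.card (card_le_card (mem_powerset.1 hw))
    linear_combination (f w) * h3
  rw [h1, mul_zero] at h2
  linarith

omit [DecidableEq α] in
lemma L_add (X : Finset α) (x : ℝ) (f g : Finset α → ℝ) :
    Lf X x (f + g) = Lf X x f + Lf X x g := by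
  unfold Lf
  rw [← sum_add_distrib]
  exact sum_congr rfl fun w _ => by rw [Pi.add_apply]; ring

omit [DecidableEq α] in
lemma L_smul (X : Finset α) (x c : ℝ) (f : Finset α → ℝ) :
    Lf X x (fun w => c * f w) = c * Lf X x f := by
  unfold Lf
  rw [mul_sum]
  exact sum_congr rfl fun w _ => by ring

lemma vander (X : Finset α) (x y : ℝ) :
    ∑ w ∈ X.powerset, ff x w.card * ff y (X.card - w.card) = ff (x + y) X.card := by
  induction X using Finset.induction_on with
  | empty => simp
  | insert a X ha ih =>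
    rw [sum_powerset_insert ha, ← sum_add_distrib, card_insert_of_notMem ha, ff_succ, ← ih, sum_mul]
    refine sum_congr rfl fun w hw => ?_
    have h1 : w.card ≤ X.card := card_le_card (mem_powerset.1 hw)
    have h2 : a ∉ w := fun h => ha (mem_powerset.1 hw h)
    rw [card_insert_of_notMem h2, show X.card + 1 - w.card = (X.card - w.card) + 1 by omega,
      show X.card + 1 - (w.card + 1) = X.card - w.card by omega, ff_succ, ff_succ]
    push_cast [Nat.cast_sub h1]
    ring

lemma L_one (X : Finset α) (x : ℝ) : Lf X x (fun _ => 1) = 1 := by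
  unfold Lf W
  have h := vander X x (X.card - x)
  rw [add_sub_cancel] at h
  have h2 : ∑ w ∈ X.powerset, ff x w.card * ff (X.card - x) (X.card - w.card) / ff X.card X.card * 1
      = (∑ w ∈ X.powerset, ff x w.card * ff (X.card - x) (X.card - w.card)) / ff X.card X.card := by
    rw [sum_div]
    exact sum_congr rfl fun w _ => by ring
  rw [h2, h, div_self (ff_nat_pos le_rfl).ne']

/-- the number of the true variables -/
def cX (X : Finset α) (w : Finset α) : ℝ := ((X ∩ w).card : ℝ)

lemma cX_eq {X w : Finset α} (h : w ∈ X.powerset) : cX X w = w.card := by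
  unfold cX
  rw [inter_eq_right.2 (mem_powerset.1 h)]

lemma cX_mem (X : Finset α) : cX X ∈ D X 1 := by
  have h : cX X = ∑ k ∈ X, conj {(k, true)} := by
    funext w
    unfold cX
    rw [Finset.sum_apply, ← Finset.filter_mem_eq_inter, card_filter]
    push_cast
    refine sum_congr rfl fun k _ => ?_
    unfold conj
    simp
  rw [h]
  refine Submodule.sum_mem _ fun k hk => conj_mem ?_ (by simp)
  intro l hl
  rw [mem_singleton] at hl
  rw [hl]
  exact hk

lemma cX_pow_mem (X : Finset α) (j : ℕ) : (cX X) ^ j ∈ D X j := by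
  induction j with
  | zero => rw [pow_zero]; exact one_mem X 0
  | succ j ih => rw [pow_succ]; exact D_mul ih (cX_mem X)

lemma L_pow (X : Finset α) (x : ℝ) (j : ℕ) (hj : j ≤ X.card) :
    Lf X x (fun w => cX X w ^ j) = x ^ j := by
  induction j with
  | zero => simpa using L_one X x
  | succ j ih =>
    have h1 := L_rel x (cX_pow_mem X j) (show j < X.card by omega)
    have h2 : Lf X x (fun w => (w.card : ℝ) * ((cX X) ^ j) w) = Lf X x (fun w => cX X w ^ (j + 1)) := by
      unfold Lf
      refine sum_congr rfl fun w hw => ?_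
      show W X.card x w.card * ((w.card : ℝ) * (cX X w) ^ j) = W X.card x w.card * (cX X w) ^ (j + 1)
      rw [pow_succ, cX_eq hw]
      ring
    rw [← h2, h1, pow_succ, ← ih (by omega)]
    rw [mul_comm]
    rfl

lemma L_poly (X : Finset α) (x : ℝ) (p : Polynomial ℝ) (hp : p.natDegree ≤ X.card) :
    Lf X x (fun w => p.eval (cX X w)) = p.eval x := by
  have h : ∀ y : ℝ, p.eval y = ∑ j ∈ range (X.card + 1), p.coeff j * y ^ j := fun y =>
    Polynomial.eval_eq_sum_range' (by omega) y
  rw [h x]
  have h2 : Lf X x (fun w => p.eval (cX X w)) =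
      ∑ j ∈ range (X.card + 1), p.coeff j * Lf X x (fun w => cX X w ^ j) := by
    unfold Lf
    simp only [h, mul_sum]
    rw [sum_comm]
    refine sum_congr rfl fun j _ => sum_congr rfl fun w _ => by ring
  rw [h2]
  refine sum_congr rfl fun j hj => ?_
  rw [L_pow X x j (by have := mem_range.1 hj; omega)]

/-! ### symmetric functions -/

/-- the exchange of two variables -/
def sw (k k' : α) (w : Finset α) : Finset α := w.map (Equiv.swap k k').toEmbedding

lemma mem_sw {k k' y : α} {w : Finset α} : y ∈ sw k k' w ↔ Equiv.swap k k' y ∈ w := by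
  unfold sw
  rw [mem_map_equiv, Equiv.symm_swap]

lemma card_sw (k k' : α) (w : Finset α) : (sw k k' w).card = w.card := card_map _

lemma sw_sw (k k' : α) (w : Finset α) : sw k k' (sw k k' w) = w := by
  ext y
  rw [mem_sw, mem_sw, Equiv.swap_apply_self]

lemma sw_sub {X : Finset α} {k k' : α} (hk : k ∈ X) (hk' : k' ∈ X) {w : Finset α} (hw : w ⊆ X) :
    sw k k' w ⊆ X := by
  intro y hy
  rw [mem_sw] at hy
  by_cases h1 : y = k
  · rw [h1]; exact hk
  · by_cases h2 : y = k'
    · rw [h2]; exact hk'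
    · rw [Equiv.swap_apply_of_ne_of_ne h1 h2] at hy
      exact hw hy

lemma sym_eq {X : Finset α} {f : Finset α → ℝ}
    (hs : ∀ k ∈ X, ∀ k' ∈ X, ∀ w ⊆ X, f (sw k k' w) = f w) :
    ∀ n : ℕ, ∀ w ⊆ X, ∀ w' ⊆ X, w.card = w'.card → (w \ w').card = n → f w = f w' := by
  intro n
  induction n with
  | zero =>
    intro w _ w' _ hc h0
    have h1 : w ⊆ w' := by
      rw [card_eq_zero, sdiff_eq_empty_iff_subset] at h0
      exact h0
    rw [eq_of_subset_of_card_le h1 hc.ge]
  | succ n ih =>
    intro w hw w' hw' hc hn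
    obtain ⟨k, hk⟩ : (w \ w').Nonempty := by rw [← card_pos]; omega
    have h2 : (w' \ w).card = (w \ w').card := by
      have a1 := card_sdiff_add_card_inter w w'
      have a2 := card_sdiff_add_card_inter w' w
      rw [inter_comm] at a2
      omega
    obtain ⟨k', hk'⟩ : (w' \ w).Nonempty := by rw [← card_pos]; omega
    rw [mem_sdiff] at hk hk'
    have hkk : k ≠ k' := fun h => hk.2 (h ▸ hk'.1)
    rw [← hs k (hw hk.1) k' (hw' hk'.1) w hw]
    refine ih _ (sw_sub (hw hk.1) (hw' hk'.1) hw) w' hw' (by rw [card_sw, hc]) ?_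
    have h3 : sw k k' w \ w' = (w \ w').erase k := by
      ext y
      rw [mem_sdiff, mem_sw, mem_erase, mem_sdiff]
      by_cases h1 : y = k
      · subst h1
        rw [Equiv.swap_apply_left]
        simp [hk'.2]
      · by_cases h4 : y = k'
        · subst h4
          simp [hk'.1, hk'.2]
        · rw [Equiv.swap_apply_of_ne_of_ne h1 h4]
          simp [h1]
    rw [h3, card_erase_of_mem (mem_sdiff.2 hk), hn]
    rfl

lemma sym_poly {X : Finset α} {N : ℕ} {f : Finset α → ℝ} (hf : f ∈ D X N)
    (hs : ∀ k ∈ X, ∀ k' ∈ X, ∀ w ⊆ X, f (sw k k' w) = f w) :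
    ∃ q : Polynomial ℝ, q.natDegree ≤ N ∧ ∀ w ⊆ X, f w = q.eval (w.card : ℝ) := by
  classical
  have hch : ∀ s : ℕ, ∃ w : Finset α, s ≤ X.card → (w ⊆ X ∧ w.card = s) := by
    intro s
    by_cases h : s ≤ X.card
    · obtain ⟨w, h1, h2⟩ := exists_subset_card_eq h
      exact ⟨w, fun _ => ⟨h1, h2⟩⟩
    · exact ⟨∅, fun h' => absurd h' h⟩
  choose ch hch using hch
  set φ : ℕ → ℝ := fun s => f (ch s) with hφ
  have hfφ : ∀ w ⊆ X, f w = φ w.card := by
    intro w hw
    have h1 := hch w.card (card_le_card hw)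
    exact sym_eq hs _ w hw _ h1.1 h1.2.symm rfl
  have hz : ∀ n, N < n → n ≤ X.card → (fwdDiff 1)^[n] φ 0 = 0 := by
    intro n h1 h2
    obtain ⟨B, hB1, hB2⟩ := exists_subset_card_eq h2
    have h3 := alt hf (show N < B.card by omega)
    have h4 : ∑ C ∈ B.powerset, (-1 : ℝ) ^ C.card * f C =
        ∑ C ∈ B.powerset, (-1 : ℝ) ^ C.card * φ C.card :=
      sum_congr rfl fun C hC => by rw [hfφ C ((mem_powerset.1 hC).trans hB1)]
    rw [h4, sum_powerset_apply_card (fun s => (-1 : ℝ) ^ s * φ s), hB2] at h3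
    rw [fwdDiff_iter_eq_sum_shift]
    have h5 : ∑ k ∈ range (n + 1), ((-1 : ℤ) ^ (n - k) * n.choose k) • φ (0 + k • 1) =
        (-1 : ℝ) ^ n * ∑ k ∈ range (n + 1), n.choose k • ((-1 : ℝ) ^ k * φ k) := by
      rw [mul_sum]
      refine sum_congr rfl fun k hk => ?_
      have hk' : k ≤ n := by have := mem_range.1 hk; omega
      have e1 : (-1 : ℝ) ^ (n - k) = (-1) ^ n * (-1) ^ k := by
        obtain ⟨j, rfl⟩ : ∃ j, n = k + j := ⟨n - k, by omega⟩
        rw [show k + j - k = j by omega, pow_add]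
        have : (-1 : ℝ) ^ k * (-1) ^ k = 1 := by
          rw [← mul_pow]; simp
        linear_combination (-(-1 : ℝ) ^ j) * this
      rw [zero_add, smul_eq_mul, mul_one, zsmul_eq_mul, nsmul_eq_mul]
      push_cast
      rw [e1]
      ring
    rw [h5, h3, mul_zero]
  refine ⟨∑ k ∈ range (N + 1), Polynomial.C ((fwdDiff 1)^[k] φ 0 / (k.factorial : ℝ)) *
    descPochhammer ℝ k, ?_, fun w hw => ?_⟩
  · refine Polynomial.natDegree_sum_le_of_forall_le _ _ fun k hk => ?_
    refine (Polynomial.natDegree_C_mul_le _ _).trans ?_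
    rw [descPochhammer_natDegree]
    have := mem_range.1 hk
    omega
  · rw [hfφ w hw]
    set s := w.card with hsw
    have hsX : s ≤ X.card := card_le_card hw
    have h1 := shift_eq_sum_fwdDiff_iter (h := 1) φ s 0
    rw [zero_add, smul_eq_mul, mul_one] at h1
    rw [h1, Polynomial.eval_finsetSum]
    have e2 : ∀ k, (Polynomial.C ((fwdDiff 1)^[k] φ 0 / (k.factorial : ℝ)) *
        descPochhammer ℝ k).eval (s : ℝ) = s.choose k • (fwdDiff 1)^[k] φ 0 := by
      intro k
      rw [Polynomial.eval_mul, Polynomial.eval_C, descPochhammer_eval_eq_descFactorial,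
        Nat.descFactorial_eq_factorial_mul_choose, nsmul_eq_mul]
      have : (k.factorial : ℝ) ≠ 0 := by positivity
      push_cast
      field_simp
    rw [sum_congr rfl fun k _ => e2 k]
    -- both sums are over `k ≤ min s N`
    have e3 : ∑ k ∈ range (s + 1), s.choose k • (fwdDiff 1)^[k] φ 0 =
        ∑ k ∈ range (s + 1 + (N + 1)), if k < s + 1 then s.choose k • (fwdDiff 1)^[k] φ 0 else 0 := by
      rw [← sum_filter]
      refine sum_congr ?_ fun _ _ => rfl
      ext k
      simp only [mem_range, mem_filter]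
      omega
    have e4 : ∑ k ∈ range (N + 1), s.choose k • (fwdDiff 1)^[k] φ 0 =
        ∑ k ∈ range (s + 1 + (N + 1)), if k < N + 1 then s.choose k • (fwdDiff 1)^[k] φ 0 else 0 := by
      rw [← sum_filter]
      refine sum_congr ?_ fun _ _ => rfl
      ext k
      simp only [mem_range, mem_filter]
      omega
    rw [e3, e4]
    refine sum_congr rfl fun k _ => ?_
    by_cases h2 : k < s + 1
    · rw [if_pos h2]
      by_cases h3 : k < N + 1
      · rw [if_pos h3]
      · rw [if_neg h3, hz k (by omega) (by omega), smul_zero]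
    · rw [if_neg h2]
      by_cases h3 : k < N + 1
      · rw [if_pos h3, Nat.choose_eq_zero_of_lt (by omega), zero_smul]
      · rw [if_neg h3]

lemma sym_pos {X : Finset α} {N : ℕ} {f : Finset α → ℝ} (hf : f ∈ D X N)
    (hs : ∀ k ∈ X, ∀ k' ∈ X, ∀ w ⊆ X, f (sw k k' w) = f w) (x : ℝ) (hN : 2 * N ≤ X.card) :
    0 ≤ Lf X x (fun w => f w ^ 2) := by
  obtain ⟨q, hq, hfq⟩ := sym_poly hf hs
  have h1 : Lf X x (fun w => f w ^ 2) = Lf X x (fun w => (q * q).eval (cX X w)) := by
    unfold Lf
    refine sum_congr rfl fun w hw => ?_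
    show W X.card x w.card * f w ^ 2 = W X.card x w.card * (q * q).eval (cX X w)
    rw [hfq w (mem_powerset.1 hw), cX_eq hw, Polynomial.eval_mul, pow_two]
  rw [h1, L_poly X x (q * q) ?_, Polynomial.eval_mul]
  · exact mul_self_nonneg _
  · exact Polynomial.natDegree_mul_le.trans (by omega)

end Pool.Agent.T9h58.MB
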