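import Pool.Agent.T9h58.MB.Km1

/-!
# The knapsack functional is nonnegative on squares
-/

set_option autoImplicit false

namespace Pool.Agent.T9h58.MB

open Finset
open Pool.Agent.T9h19.MB (ff)

variable {α : Type} [DecidableEq α]

/-- the restriction to `k` true, `k'` false -/
def res (k k' : α) (w : Finset α) : Finset α := insert k ((w.erase k).erase k')

lemma conj_res {X : Finset α} {N : ℕ} {k k' : α} (hkk : k ≠ k') {A : Finset (α × Bool)}
    (hA : ∀ l ∈ A, l.1 ∈ X) (hN : A.card ≤ N + 1) (hi : ∃ l ∈ A, l.1 = k ∨ l.1 = k') :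
    (fun w => conj A (res k k' w)) ∈ D ((X.erase k).erase k') N := by
  obtain ⟨l₀, hl₀, hl₀'⟩ := hi
  set A' := A.filter (fun l => l.1 ≠ k ∧ l.1 ≠ k') with hA'
  have hc : A'.card ≤ N := by
    have h1 : A' ⊂ A := by
      rw [Finset.ssubset_iff_of_subset (filter_subset _ _)]
      refine ⟨l₀, hl₀, ?_⟩
      rw [mem_filter]
      rintro ⟨-, h2, h3⟩
      rcases hl₀' with h | h
      · exact h2 h
      · exact h3 h
    have := card_lt_card h1
    omega
  have hm : conj A' ∈ D ((X.erase k).erase k') N := conj_mem (fun l hl => by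
    rw [hA', mem_filter] at hl
    exact mem_erase.2 ⟨hl.2.2, mem_erase.2 ⟨hl.2.1, hA l hl.1⟩⟩) hc
  by_cases hbad : (k, false) ∈ A ∨ (k', true) ∈ A
  · have h0 : (fun w => conj A (res k k' w)) = 0 := by
      funext w
      unfold conj res
      rw [if_neg]
      · rfl
      intro h
      rcases hbad with hb | hb
      · have := h _ hb
        simp at this
      · have := h _ hb
        simp [hkk.symm] at this
    rw [h0]
    exact Submodule.zero_mem _
  · push Not at hbad
    have h0 : (fun w => conj A (res k k' w)) = conj A' := by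
      funext w
      unfold conj res
      congr 1
      apply propext
      constructor
      · intro h l hl
        rw [hA', mem_filter] at hl
        have := h l hl.1
        rw [← this, mem_insert, mem_erase, mem_erase]
        simp [hl.2.1, hl.2.2]
      · intro h l hl
        by_cases h1 : l.1 = k
        · rw [h1]
          have h2 : l.2 = true := by
            by_contra h3
            rw [Bool.not_eq_true] at h3
            apply hbad.1
            rw [← h1, ← h3]
            exact hl
          simp [h2]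
        · by_cases h2 : l.1 = k'
          · rw [h2]
            have h3 : l.2 = false := by
              by_contra h3
              rw [Bool.not_eq_false] at h3
              apply hbad.2
              rw [← h2, ← h3]
              exact hl
            simp [h3, hkk.symm]
          · have := h l (by rw [hA', mem_filter]; exact ⟨hl, h1, h2⟩)
            rw [← this, mem_insert, mem_erase, mem_erase]
            simp [h1, h2]
    rw [h0]
    exact hm

/-- the difference of the two restrictions of a function of degree at most `N + 1` -/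
lemma anti {X : Finset α} {N : ℕ} {k k' : α} (hkk : k ≠ k') {f : Finset α → ℝ}
    (hf : f ∈ D X (N + 1)) :
    (fun w => f (res k k' w) - f (res k' k w)) ∈ D ((X.erase k).erase k') N := by
  refine Submodule.span_induction ?_ ?_ ?_ ?_ hf
  · rintro f ⟨A, hA, hN, rfl⟩
    by_cases hi : ∃ l ∈ A, l.1 = k ∨ l.1 = k'
    · have h1 := conj_res hkk hA hN hi
      have h2 := conj_res hkk.symm hA hN (by
        obtain ⟨l, h1, h2⟩ := hi
        exact ⟨l, h1, h2.symm⟩)
      rw [erase_right_comm] at h2
      exact Submodule.sub_mem _ h1 h2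
    · push Not at hi
      have h0 : (fun w => conj A (res k k' w) - conj A (res k' k w)) = 0 := by
        funext w
        show _ = (0 : ℝ)
        rw [sub_eq_zero]
        unfold conj res
        congr 1
        apply propext
        refine forall₂_congr fun l hl => ?_
        have := hi l hl
        simp [this.1, this.2]
      rw [h0]
      exact Submodule.zero_mem _
  · have h0 : (fun w => (0 : Finset α → ℝ) (res k k' w) - (0 : Finset α → ℝ) (res k' k w)) = 0 := by
      funext w
      simp
    rw [h0]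
    exact Submodule.zero_mem _
  · intro f g _ _ h1 h2
    have h3 : (fun w => (f + g) (res k k' w) - (f + g) (res k' k w)) =
        (fun w => f (res k k' w) - f (res k' k w)) + (fun w => g (res k k' w) - g (res k' k w)) := by
      funext w
      simp only [Pi.add_apply]
      ring
    rw [h3]
    exact Submodule.add_mem _ h1 h2
  · intro c f _ h1
    have h3 : (fun w => (c • f) (res k k' w) - (c • f) (res k' k w)) =
        c • (fun w => f (res k k' w) - f (res k' k w)) := by
      funext w
      simp only [Pi.smul_apply, smul_eq_mul]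
      ring
    rw [h3]
    exact Submodule.smul_mem _ c h1

omit [DecidableEq α] in
lemma W_two (m : ℕ) (x : ℝ) {s : ℕ} (hs : s ≤ m) :
    W (m + 2) x (s + 1) = (x * ((m : ℝ) + 2 - x) / (((m : ℝ) + 2) * (m + 1))) * W m (x - 1) s := by
  obtain ⟨r, rfl⟩ : ∃ r, m = s + r := ⟨m - s, by omega⟩
  unfold W
  rw [show s + r + 2 - (s + 1) = r + 1 by omega, show s + r - s = r by omega, ff_succ', ff_succ',
    show s + r + 2 = s + r + 1 + 1 by omega, ff_succ' _ (s + r + 1), ff_succ' _ (s + r)]
  have e1 : (((s + r + 1 + 1 : ℕ) : ℝ) - x - 1) = ((s + r : ℕ) : ℝ) - (x - 1) := by push_cast; ring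
  have e2 : (((s + r + 1 + 1 : ℕ) : ℝ) - 1 - 1) = ((s + r : ℕ) : ℝ) := by push_cast; ring
  rw [e1, e2]
  have h1 : ff ((s + r : ℕ) : ℝ) (s + r) ≠ 0 := (ff_nat_pos le_rfl).ne'
  have h2 : ((s + r : ℕ) : ℝ) + 2 ≠ 0 := by positivity
  have h3 : ((s + r : ℕ) : ℝ) + 1 ≠ 0 := by positivity
  have e3 : (((s + r + 1 + 1 : ℕ) : ℝ)) = ((s + r : ℕ) : ℝ) + 2 := by push_cast; ring
  rw [e3]
  have e4 : ((s + r : ℕ) : ℝ) + 2 - 1 = ((s + r : ℕ) : ℝ) + 1 := by ring
  rw [e4]
  field_simp

/-- the form on an antisymmetric function -/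
lemma anti_sum {X : Finset α} {k k' : α} (hk : k ∈ X) (hk' : k' ∈ X) (hkk : k ≠ k') (x : ℝ)
    (f : Finset α → ℝ) :
    Lf X x (fun w => (f w - f (sw k k' w)) ^ 2) =
      2 * (x * ((X.card : ℝ) - x) / ((X.card : ℝ) * (X.card - 1))) *
        Lf ((X.erase k).erase k') (x - 1) (fun w => (f (res k k' w) - f (res k' k w)) ^ 2) := by
  obtain ⟨Y, hY⟩ : ∃ Y, Y = (X.erase k).erase k' := ⟨_, rfl⟩
  rw [← hY]
  have hkY : k ∉ Y := by rw [hY]; simp
  have hk'Y : k' ∉ Y := by rw [hY]; simp
  have hX : X = insert k (insert k' Y) := by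
    rw [hY, insert_erase (mem_erase.2 ⟨hkk.symm, hk'⟩), insert_erase hk]
  have hk2 : k ∉ insert k' Y := by rw [mem_insert]; rintro (h | h); exacts [hkk h, hkY h]
  have hcard : X.card = Y.card + 2 := by
    rw [hX, card_insert_of_notMem hk2, card_insert_of_notMem hk'Y]
  unfold Lf
  rw [show ∑ w ∈ X.powerset, W X.card x w.card * (f w - f (sw k k' w)) ^ 2 =
    ∑ w ∈ (insert k (insert k' Y)).powerset, W X.card x w.card * (f w - f (sw k k' w)) ^ 2 by rw [← hX],
    sum_powerset_insert hk2, sum_powerset_insert hk'Y, sum_powerset_insert hk'Y, mul_sum]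
  rw [← sum_add_distrib, ← sum_add_distrib, ← sum_add_distrib]
  refine sum_congr rfl fun w hw => ?_
  have hwk : k ∉ w := fun h => hkY (mem_powerset.1 hw h)
  have hwk' : k' ∉ w := fun h => hk'Y (mem_powerset.1 hw h)
  have hwc : w.card ≤ Y.card := card_le_card (mem_powerset.1 hw)
  have e1 : sw k k' w = w := by
    ext y
    rw [mem_sw]
    by_cases h1 : y = k
    · subst h1
      rw [Equiv.swap_apply_left]
      simp [hwk, hwk']
    · by_cases h2 : y = k'
      · subst h2
        rw [Equiv.swap_apply_right]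
        simp [hwk, hwk']
      · rw [Equiv.swap_apply_of_ne_of_ne h1 h2]
  have e2 : sw k k' (insert k (insert k' w)) = insert k (insert k' w) := by
    ext y
    rw [mem_sw]
    by_cases h1 : y = k
    · subst h1
      rw [Equiv.swap_apply_left]
      simp
    · by_cases h2 : y = k'
      · subst h2
        rw [Equiv.swap_apply_right]
        simp
      · rw [Equiv.swap_apply_of_ne_of_ne h1 h2]
  have e3 : sw k k' (insert k' w) = insert k w := by
    ext y
    rw [mem_sw]
    by_cases h1 : y = k
    · subst h1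
      rw [Equiv.swap_apply_left]
      simp
    · by_cases h2 : y = k'
      · subst h2
        rw [Equiv.swap_apply_right]
        simp [hkk, hwk, hwk', hkk.symm]
      · rw [Equiv.swap_apply_of_ne_of_ne h1 h2]
        simp [h1, h2]
  have e4 : sw k k' (insert k w) = insert k' w := by
    rw [← e3, sw_sw]
  have e5 : res k k' w = insert k w := by
    unfold res
    rw [erase_eq_of_notMem hwk, erase_eq_of_notMem hwk']
  have e6 : res k' k w = insert k' w := by
    unfold res
    rw [erase_eq_of_notMem hwk', erase_eq_of_notMem hwk]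
  show _ = 2 * (x * ((X.card : ℝ) - x) / ((X.card : ℝ) * (X.card - 1))) *
      (W Y.card (x - 1) w.card * (f (res k k' w) - f (res k' k w)) ^ 2)
  rw [e1, e2, e3, e4, e5, e6, sub_self, sub_self, card_insert_of_notMem hwk, card_insert_of_notMem hwk',
    hcard, W_two _ _ hwc]
  push_cast
  have e8 : ((Y.card : ℝ) + 2 - 1) = Y.card + 1 := by ring
  rw [e8]
  ring

/-- the exchange on the sets of literals -/
def swl (k k' : α) (A : Finset (α × Bool)) : Finset (α × Bool) :=
  A.map ((Equiv.swap k k').prodCongr (Equiv.refl Bool)).toEmbedding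

lemma mem_swl {k k' : α} {A : Finset (α × Bool)} {l : α × Bool} :
    l ∈ swl k k' A ↔ (Equiv.swap k k' l.1, l.2) ∈ A := by
  unfold swl
  rw [mem_map_equiv]
  have : ((Equiv.swap k k').prodCongr (Equiv.refl Bool)).symm l = (Equiv.swap k k' l.1, l.2) := by
    rw [Equiv.symm_apply_eq]
    ext
    · simp
    · simp
  rw [this]

lemma swl_swl (k k' : α) (A : Finset (α × Bool)) : swl k k' (swl k k' A) = A := by
  ext l
  rw [mem_swl, mem_swl, Equiv.swap_apply_self]

lemma conj_swl (k k' : α) (A : Finset (α × Bool)) (w : Finset α) :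
    conj (swl k k' A) (sw k k' w) = conj A w := by
  unfold conj
  congr 1
  apply propext
  constructor
  · intro h l hl
    have := h (Equiv.swap k k' l.1, l.2) (by rw [mem_swl, Equiv.swap_apply_self]; exact hl)
    rw [mem_sw, Equiv.swap_apply_self] at this
    exact this
  · intro h l hl
    rw [mem_swl] at hl
    rw [mem_sw]
    exact h _ hl

/-- the index type: sets of at most `N` literals over `X` -/
abbrev Ix (X : Finset α) (N : ℕ) := {A : Finset (α × Bool) // A.card ≤ N ∧ ∀ l ∈ A, l.1 ∈ X}

lemma swl_ok {X : Finset α} {N : ℕ} {k k' : α} (hk : k ∈ X) (hk' : k' ∈ X) {A : Finset (α × Bool)}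
    (h : A.card ≤ N ∧ ∀ l ∈ A, l.1 ∈ X) :
    (swl k k' A).card ≤ N ∧ ∀ l ∈ swl k k' A, l.1 ∈ X := by
  refine ⟨(card_map _).le.trans h.1, fun l hl => ?_⟩
  rw [mem_swl] at hl
  have := h.2 _ hl
  by_cases h1 : l.1 = k
  · rw [h1]; exact hk
  · by_cases h2 : l.1 = k'
    · rw [h2]; exact hk'
    · rw [Equiv.swap_apply_of_ne_of_ne h1 h2] at this
      exact this

/-- the exchange as a permutation of the index type -/
def tau {X : Finset α} (N : ℕ) (k k' : X) : Equiv.Perm (Ix X N) where
  toFun A := ⟨swl k.1 k'.1 A.1, swl_ok k.2 k'.2 A.2⟩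
  invFun A := ⟨swl k.1 k'.1 A.1, swl_ok k.2 k'.2 A.2⟩
  left_inv A := Subtype.ext (swl_swl _ _ _)
  right_inv A := Subtype.ext (swl_swl _ _ _)

lemma L_sw {X : Finset α} {k k' : α} (hk : k ∈ X) (hk' : k' ∈ X) (x : ℝ) (f : Finset α → ℝ) :
    Lf X x (fun w => f (sw k k' w)) = Lf X x f := by
  unfold Lf
  refine sum_nbij' (sw k k') (sw k k') ?_ ?_ ?_ ?_ ?_
  · intro w hw
    exact mem_powerset.2 (sw_sub hk hk' (mem_powerset.1 hw))
  · intro w hw
    exact mem_powerset.2 (sw_sub hk hk' (mem_powerset.1 hw))
  · intro w _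
    exact sw_sw _ _ _
  · intro w _
    exact sw_sw _ _ _
  · intro w _
    rw [card_sw]

lemma L_form {ι : Type} [Fintype ι] (X : Finset α) (x : ℝ) (g : ι → Finset α → ℝ) (v : ι → ℝ) :
    ∑ A, ∑ B, v A * v B * Lf X x (fun w => g A w * g B w) =
      Lf X x (fun w => (∑ A, v A * g A w) ^ 2) := by
  unfold Lf
  have e : ∀ w, W X.card x w.card * (∑ A, v A * g A w) ^ 2 =
      ∑ A, ∑ B, v A * v B * (W X.card x w.card * (g A w * g B w)) := by
    intro w
    rw [pow_two, sum_mul_sum, mul_sum]
    refine sum_congr rfl fun A _ => ?_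
    rw [mul_sum]
    exact sum_congr rfl fun B _ => by ring
  symm
  simp only [e]
  rw [sum_comm]
  refine sum_congr rfl fun A _ => ?_
  rw [sum_comm]
  refine sum_congr rfl fun B _ => ?_
  rw [mul_sum]

/-- **the knapsack functional is nonnegative on the squares of functions of degree at most `N`** -/
theorem pos [Fintype α] : ∀ (N : ℕ) (X : Finset α) (x : ℝ), (N : ℝ) ≤ x → (N : ℝ) ≤ X.card - x →
    ∀ f ∈ D X N, 0 ≤ Lf X x (fun w => f w ^ 2) := by
  classical
  intro N
  induction N with
  | zero =>
    intro X x _ _ f hf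
    -- `f` is constant
    have h1 : ∃ c : ℝ, f = fun _ => c := by
      refine Submodule.span_induction ?_ ?_ ?_ ?_ hf
      · rintro f ⟨A, -, hA, rfl⟩
        rw [Nat.le_zero, card_eq_zero] at hA
        subst hA
        exact ⟨1, by funext w; simp [conj]⟩
      · exact ⟨0, rfl⟩
      · rintro f g _ _ ⟨c, rfl⟩ ⟨d, rfl⟩
        exact ⟨c + d, rfl⟩
      · rintro a f _ ⟨c, rfl⟩
        exact ⟨a * c, rfl⟩
    obtain ⟨c, rfl⟩ := h1
    have h2 := L_smul X x (c ^ 2) (fun _ => 1)
    simp only [mul_one] at h2
    rw [h2, L_one]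
    positivity
  | succ N ih =>
    intro X x hx1 hx2 f hf
    push_cast at hx1 hx2
    -- `f` as a combination
    obtain ⟨v, hv⟩ : ∃ v : Ix X (N + 1) → ℝ, f = fun w => ∑ A, v A * conj A.1 w := by
      have h1 : D X (N + 1) = Submodule.span ℝ (Set.range fun A : Ix X (N + 1) => conj A.1) := by
        unfold D
        congr 1
        ext g
        constructor
        · rintro ⟨A, h1, h2, rfl⟩
          exact ⟨⟨A, h2, h1⟩, rfl⟩
        · rintro ⟨A, rfl⟩
          exact ⟨A.1, A.2.2, A.2.1, rfl⟩
      rw [h1, Submodule.mem_span_range_iff_exists_fun] at hf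
      obtain ⟨c, hc⟩ := hf
      refine ⟨c, ?_⟩
      rw [← hc]
      funext w
      simp [Finset.sum_apply]
    have hD : ∀ v : Ix X (N + 1) → ℝ, (fun w => ∑ A, v A * conj A.1 w) ∈ D X (N + 1) := by
      intro v
      have : (fun w => ∑ A, v A * conj A.1 w) = ∑ A, v A • conj (A : Ix X (N + 1)).1 := by
        funext w
        simp [Finset.sum_apply]
      rw [this]
      exact Submodule.sum_mem _ fun A _ => Submodule.smul_mem _ _ (conj_mem A.2.2 A.2.1)
    rw [hv]
    have hτf : ∀ (v : Ix X (N + 1) → ℝ) (k k' : X) (w : Finset α),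
        ∑ A, v (tau (N + 1) k k' A) * conj A.1 w = ∑ A, v A * conj A.1 (sw k.1 k'.1 w) := by
      intro v k k' w
      rw [← Equiv.sum_comp (tau (N + 1) k k') (fun A => v A * conj A.1 (sw k.1 k'.1 w))]
      refine sum_congr rfl fun A _ => ?_
      congr 1
      exact (conj_swl k.1 k'.1 A.1 w).symm
    rw [← L_form X x (fun A : Ix X (N + 1) => conj A.1) v]
    refine spectral (ι := Ix X (N + 1)) (fun A B => Lf X x (fun w => conj A.1 w * conj B.1 w))
      (fun A B => ?_) (K := X × X) (fun p => tau (N + 1) p.1 p.2) (fun p A => ?_) (fun p A B => ?_)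
      (fun v hinv => ?_) (fun p v => ?_) v
    · congr 1
      funext w
      ring
    · exact Subtype.ext (swl_swl _ _ _)
    · rw [← L_sw p.1.2 p.2.2 x (fun w => conj (tau (N + 1) p.1 p.2 A).1 w *
        conj (tau (N + 1) p.1 p.2 B).1 w)]
      congr 1
      funext w
      exact congrArg₂ _ (conj_swl _ _ _ _) (conj_swl _ _ _ _)
    · rw [L_form X x (fun A : Ix X (N + 1) => conj A.1) v]
      refine sym_pos (hD v) (fun k hk k' hk' w _ => ?_) x ?_
      · rw [← hτf v ⟨k, hk⟩ ⟨k', hk'⟩ w]
        exact sum_congr rfl fun A _ => by rw [hinv (⟨k, hk⟩, ⟨k', hk'⟩)]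
      · have : (2 : ℝ) * (N + 1) ≤ X.card := by linarith
        exact_mod_cast this
    · have h1 := L_form X x (fun A : Ix X (N + 1) => conj A.1)
        (fun A => v A - v (tau (N + 1) p.1 p.2 A))
      refine le_of_le_of_eq ?_ h1.symm
      have h2 : (fun w => (∑ A : Ix X (N + 1), (v A - v (tau (N + 1) p.1 p.2 A)) * conj A.1 w) ^ 2) =
          fun w => ((fun w => ∑ A, v A * conj A.1 w) w -
            (fun w => ∑ A, v A * conj A.1 w) (sw p.1.1 p.2.1 w)) ^ 2 := by
        funext w
        simp only [sub_mul, sum_sub_distrib]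
        rw [hτf]
      rw [h2]
      by_cases hkk : p.1.1 = p.2.1
      · have h3 : ∀ w, sw p.1.1 p.2.1 w = w := by
          intro w
          ext y
          rw [mem_sw, hkk, Equiv.swap_self, Equiv.refl_apply]
        simp only [h3, sub_self]
        unfold Lf
        simp
      · rw [anti_sum p.1.2 p.2.2 hkk]
        have hcard : ((X.erase p.1.1).erase p.2.1).card = X.card - 2 := by
          rw [card_erase_of_mem (mem_erase.2 ⟨Ne.symm hkk, p.2.2⟩), card_erase_of_mem p.1.2]
          omega
        have hX2 : 2 ≤ X.card := by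
          have : (2 : ℝ) ≤ X.card := by
            have : (0 : ℝ) ≤ N := Nat.cast_nonneg N
            linarith
          exact_mod_cast this
        have hcr : (((X.erase p.1.1).erase p.2.1).card : ℝ) = X.card - 2 := by
          rw [hcard, Nat.cast_sub hX2]
          norm_num
        have hX2' : (2 : ℝ) ≤ X.card := by exact_mod_cast hX2
        have hN0 : (0 : ℝ) ≤ N := Nat.cast_nonneg N
        refine mul_nonneg (mul_nonneg (by norm_num) (div_nonneg (mul_nonneg (by linarith)
          (by linarith)) (mul_nonneg (by linarith) (by linarith)))) ?_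
        exact ih _ (x - 1) (by linarith) (by rw [hcr]; linarith) _ (anti hkk (hD v))

end Pool.Agent.T9h58.MB
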